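import Mathlib
import Pool.Agent.Helper26.QS.Fin

/-!
MP_36c81c_nt, Q1 (parity form, almost all windows).  For real `0 ≤ δ`, `10 δ < ε` all but `C N ^ ε` of
the `m ≤ N` are such that every interval `(m ^ 2, m ^ 2 + L]`, `L ≥ m ^ (1 - δ)`, contains at least
`m ^ (1 - ε)` integers with an even and at least `m ^ (1 - ε)` integers with an odd number of prime
factors.  (For `δ > 0` and large `m` one may take `L = φ(m)`, the interval of Q1.)
-/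

set_option autoImplicit false

namespace Pool.Agent.Results.MP_36c81c_nt.FewOneParityWindows

/-- The number of integers `z` with `m ^ 2 < z ≤ m ^ 2 + L` that have an even number of prime factors,
counted with multiplicity. -/
noncomputable def evens (m : ℕ) (L : ℝ) : ℕ :=
  {z : ℕ | m ^ 2 < z ∧ (z : ℝ) ≤ (m : ℝ) ^ 2 + L ∧
    Even (ArithmeticFunction.cardFactors z)}.ncard

/-- The number of integers `z` with `m ^ 2 < z ≤ m ^ 2 + L` that have an odd number of prime factors,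
counted with multiplicity. -/
noncomputable def odds (m : ℕ) (L : ℝ) : ℕ :=
  {z : ℕ | m ^ 2 < z ∧ (z : ℝ) ≤ (m : ℝ) ^ 2 + L ∧
    Odd (ArithmeticFunction.cardFactors z)}.ncard

/-- The positive integers `m` for which, for some `L ≥ m ^ (1 - δ)`, the integers of
`(m ^ 2, m ^ 2 + L]` include fewer than `m ^ (1 - ε)` of one of the two kinds. -/
def Poor (δ ε : ℝ) : Set ℕ :=
  {m : ℕ | 1 ≤ m ∧ ∃ L : ℝ, (m : ℝ) ^ (1 - δ) ≤ L ∧
    ¬ ((m : ℝ) ^ (1 - ε) ≤ evens m L ∧ (m : ℝ) ^ (1 - ε) ≤ odds m L)}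

theorem window_finite (m : ℕ) (L : ℝ) (p : ℕ → Prop) :
    {z : ℕ | m ^ 2 < z ∧ (z : ℝ) ≤ (m : ℝ) ^ 2 + L ∧ p z}.Finite :=
  (Set.finite_Iic ⌊(m : ℝ) ^ 2 + L⌋₊).subset fun _ hz => Nat.le_floor hz.2.1

theorem window_mono (m : ℕ) {L₁ L₂ : ℝ} (h : L₁ ≤ L₂) (p : ℕ → Prop) :
    {z : ℕ | m ^ 2 < z ∧ (z : ℝ) ≤ (m : ℝ) ^ 2 + L₁ ∧ p z}.ncard ≤
      {z : ℕ | m ^ 2 < z ∧ (z : ℝ) ≤ (m : ℝ) ^ 2 + L₂ ∧ p z}.ncard :=
  Set.ncard_le_ncard (fun _ hz => ⟨hz.1, hz.2.1.trans (by linarith), hz.2.2⟩)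
    (window_finite m L₂ p)

/-- Few windows after squares are poor in one parity. -/
theorem result (δ ε : ℝ) (hδ : 0 ≤ δ) (h : 10 * δ < ε) : ∃ C : ℝ, ∀ N : ℕ, 1 ≤ N →
    (({m ∈ Poor δ ε | m ≤ N}.ncard : ℕ) : ℝ) ≤ C * (N : ℝ) ^ ε := by
  obtain ⟨C, hC⟩ := Pool.Agent.Helper26.QS.few_windows δ ε hδ h
  refine ⟨C, fun N hN => le_trans ?_ (hC N hN)⟩
  refine Nat.cast_le.2 (Set.ncard_le_ncard ?_ ?_)
  · rintro m ⟨⟨a1, L, a2, a3⟩, a4⟩
    refine ⟨a1, a4, fun hc => a3 ⟨hc.1.trans ?_, hc.2.trans ?_⟩⟩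
    · exact Nat.cast_le.2 (window_mono m a2 _)
    · exact Nat.cast_le.2 (window_mono m a2 _)
  · exact (Set.finite_Iic N).subset fun _ hm => hm.2.1

end Pool.Agent.Results.MP_36c81c_nt.FewOneParityWindows
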